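import Pool.Agent.Helper38.MS.Defs
import Pool.Agent.Helper40.EA.Bd
import Pool.Agent.Helper96.EK.Num

/-!
# MS10: the numbers
-/

set_option autoImplicit false

namespace Pool.Agent.Helper38.MS

open Pool.Agent.Helper6.EA
open Pool.Agent.Helper12.EK (num_aux3 num_aux4)

private lemma num31 (W : ℕ) : ∀ j, 11 + W ≤ j → 2 ^ j + W * (2 * j) ≤ 2 ^ (2 * j) := by
  intro j hj
  have h1 : j * j ≤ 2 * 2 ^ j := by
    have h2 : ∀ i, 4 ≤ i → i * i ≤ 2 ^ i := by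
      intro i hi
      induction i, hi using Nat.le_induction with
      | base => norm_num
      | succ i hi ih =>
        rw [pow_succ 2 i]
        nlinarith
    have := h2 j (by omega)
    omega
  have h2 : j < 2 ^ j := Nat.lt_two_pow_self
  have h3 : 11 ≤ 2 ^ j := by omega
  have h4 : W * (2 * j) ≤ 2 * (j * j) := by
    calc W * (2 * j) ≤ j * (2 * j) := Nat.mul_le_mul_right _ (by omega)
      _ = _ := by ring
  have h5 : 2 ^ (2 * j) = 2 ^ j * 2 ^ j := by rw [← pow_add, two_mul]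
  rw [h5]
  calc 2 ^ j + W * (2 * j) ≤ 2 ^ j + 4 * 2 ^ j := by omega
    _ ≤ 11 * 2 ^ j := by omega
    _ ≤ 2 ^ j * 2 ^ j := Nat.mul_le_mul_right _ h3

/-- MS10: numbers: `q = 2 ^ (2 j)`, `l = 2 ^ ((r + 1) (2 j))`, `M₀ = 4 ^ (2 j)`, `s = 2 ^ (2 ^ j)`, `s' = 2 ^ (C j ^ 2)` -/
theorem numS (r c a e : ℕ) : ∃ C : ℕ, 1 ≤ C ∧ ∃ j₀, 1 ≤ j₀ ∧ ∀ j, j₀ ≤ j →
    2 ^ (2 ^ j) * (cB r (dE r (2 ^ ((r + 1) * (2 * j))) (2 ^ (2 * j)) r)) ^ 2 * (r * 2 ^ ((r + 1) * (2 * j)) + 1) ^ r * 2 ^ (2 * j) *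
      ((2 ^ (2 * j)) ^ r - 1) ^ 2 ^ ((r + 1) * (2 * j)) ≤ ((2 ^ (2 * j)) ^ r) ^ 2 ^ ((r + 1) * (2 * j)) ∧
    (2 ^ (2 * j) - 1) ^ (4 ^ (2 * j) + 1) * 2 ^ (2 * j) ≤ (2 ^ (2 * j)) ^ (4 ^ (2 * j) + 1) ∧
    ((4 ^ (2 * j) + 1) * (dE r (2 ^ ((r + 1) * (2 * j))) (2 ^ (2 * j)) r + 1) ^ 2) ^ (Nat.log 2 (4 ^ (2 * j)) + 1) ≤ 2 ^ (C * j ^ 2) ∧
    4 ^ (2 * j) * (tE r (2 ^ ((r + 1) * (2 * j))) (2 ^ (2 * j)) r + r + 4) ≤ 2 ^ (C * j ^ 2) ∧
    j ^ 2 * (a * 2 ^ (c * e * j ^ 2) + tE r (2 ^ ((r + 1) * (2 * j))) (2 ^ (2 * j)) r + 3 * r + 3) ≤ 2 ^ (C * j ^ 2) := by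
  obtain ⟨c1, h1⟩ := bd_dE r r
  obtain ⟨c2, h2⟩ := bd_tE r r
  obtain ⟨c3, h3⟩ := bd_cB r (bd_dE r r)
  obtain ⟨c4, h4⟩ := (((bd_const r).mul (bd_two_pow (r + 1))).add (bd_const 1)).pow r
  obtain ⟨C, hC⟩ : ∃ C, C = a + c * e + 2 * c2 + 3 * r + 20 * c1 + 35 := ⟨_, rfl⟩
  obtain ⟨W, hW⟩ : ∃ W, W = 2 * c3 + c4 + 1 := ⟨_, rfl⟩
  refine ⟨C, by omega, 11 + W, by omega, fun j hj => ?_⟩
  have hj1 : 1 ≤ j := by omega
  have hq : 1 ≤ 2 ^ (2 * j) := Nat.one_le_two_pow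
  have hjj : j ≤ j ^ 2 := Nat.le_self_pow (by norm_num) j
  have g1 : dE r (2 ^ ((r + 1) * (2 * j))) (2 ^ (2 * j)) r ≤ 2 ^ (c1 * (2 * j)) := h1 (2 * j) (by omega)
  have g2 : tE r (2 ^ ((r + 1) * (2 * j))) (2 ^ (2 * j)) r ≤ 2 ^ (c2 * (2 * j)) := h2 (2 * j) (by omega)
  have g3 : cB r (dE r (2 ^ ((r + 1) * (2 * j))) (2 ^ (2 * j)) r) ≤ 2 ^ (c3 * (2 * j)) := h3 (2 * j) (by omega)
  have g4 : (r * 2 ^ ((r + 1) * (2 * j)) + 1) ^ r ≤ 2 ^ (c4 * (2 * j)) := h4 (2 * j) (by omega)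
  have e4 : (4 : ℕ) ^ (2 * j) = 2 ^ (4 * j) := by
    rw [show (4 : ℕ) = 2 ^ 2 by norm_num, ← pow_mul]
    congr 1
    ring
  refine ⟨?_, ?_, ?_, ?_, ?_⟩
  · have hQ : 1 ≤ (2 ^ (2 * j)) ^ r := Nat.one_le_pow _ _ (by positivity)
    have el : 2 ^ ((r + 1) * (2 * j)) = (2 ^ (2 * j)) ^ r * 2 ^ (2 * j) := by
      rw [← pow_mul, ← pow_add]
      congr 1
      ring
    have k1 := num_aux3 hQ (2 ^ (2 * j))
    rw [← el] at k1
    have k2 : 2 ^ (2 ^ j) * (cB r (dE r (2 ^ ((r + 1) * (2 * j))) (2 ^ (2 * j)) r)) ^ 2 *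
        (r * 2 ^ ((r + 1) * (2 * j)) + 1) ^ r * 2 ^ (2 * j) ≤ 2 ^ 2 ^ (2 * j) := by
      calc _ ≤ 2 ^ (2 ^ j) * (2 ^ (c3 * (2 * j))) ^ 2 * 2 ^ (c4 * (2 * j)) * 2 ^ (2 * j) := by
            gcongr
        _ = 2 ^ (2 ^ j + W * (2 * j)) := by
            rw [← pow_mul, ← pow_add, ← pow_add, ← pow_add, hW]
            congr 1
            ring
        _ ≤ 2 ^ 2 ^ (2 * j) := Nat.pow_le_pow_right (by norm_num) (num31 W j hj)
    exact (Nat.mul_le_mul_right _ k2).trans k1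
  · have k1 := num_aux4 hq (t := 2 ^ (2 * j)) (u := 2 * j) Nat.lt_two_pow_self.le
    rw [show 2 ^ (2 * j) * 2 ^ (2 * j) = 4 ^ (2 * j) by
      rw [e4, ← pow_add]
      congr 1
      ring] at k1
    rw [mul_comm]
    exact k1
  · have k1 : (4 ^ (2 * j) + 1) * (dE r (2 ^ ((r + 1) * (2 * j))) (2 ^ (2 * j)) r + 1) ^ 2 ≤ 2 ^ ((4 * c1 + 7) * j) := by
      have k2 : 4 ^ (2 * j) + 1 ≤ 2 ^ (4 * j + 1) := by
        rw [pow_succ, e4]
        have : 1 ≤ 2 ^ (4 * j) := Nat.one_le_two_pow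
        omega
      have k3 : dE r (2 ^ ((r + 1) * (2 * j))) (2 ^ (2 * j)) r + 1 ≤ 2 ^ (c1 * (2 * j) + 1) := by
        rw [pow_succ]
        have : 1 ≤ 2 ^ (c1 * (2 * j)) := Nat.one_le_two_pow
        omega
      calc _ ≤ 2 ^ (4 * j + 1) * (2 ^ (c1 * (2 * j) + 1)) ^ 2 :=
            Nat.mul_le_mul k2 (Nat.pow_le_pow_left k3 2)
        _ = 2 ^ (4 * j + 1 + (c1 * (2 * j) + 1) * 2) := by rw [← pow_mul, ← pow_add]
        _ ≤ _ := Nat.pow_le_pow_right (by norm_num) (by nlinarith)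
    have k4 : Nat.log 2 (4 ^ (2 * j)) = 4 * j := by
      rw [e4, Nat.log_pow (by norm_num)]
    rw [k4]
    calc _ ≤ (2 ^ ((4 * c1 + 7) * j)) ^ (4 * j + 1) := Nat.pow_le_pow_left k1 _
      _ ≤ (2 ^ ((4 * c1 + 7) * j)) ^ (5 * j) :=
          Nat.pow_le_pow_right Nat.one_le_two_pow (by omega)
      _ = 2 ^ ((20 * c1 + 35) * j ^ 2) := by
          rw [← pow_mul]
          congr 1
          ring
      _ ≤ 2 ^ (C * j ^ 2) :=
          Nat.pow_le_pow_right (by norm_num) (Nat.mul_le_mul_right _ (by omega))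
  · have k3 : tE r (2 ^ ((r + 1) * (2 * j))) (2 ^ (2 * j)) r + r + 4 ≤ 2 ^ (c2 * (2 * j) + (r + 4)) := by
      have k5 : r + 4 < 2 ^ (r + 4) := Nat.lt_two_pow_self
      have k6 : 1 ≤ 2 ^ (c2 * (2 * j)) := Nat.one_le_two_pow
      rw [pow_add]
      have k7 : 1 ≤ 2 ^ (r + 4) := by omega
      nlinarith
    calc _ ≤ 2 ^ (4 * j) * 2 ^ (c2 * (2 * j) + (r + 4)) := by
          rw [e4]
          exact Nat.mul_le_mul_left _ k3
      _ = 2 ^ ((4 + 2 * c2) * j + (r + 4)) := by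
          rw [← pow_add]
          congr 1
          ring
      _ ≤ 2 ^ (C * j ^ 2) := by
          apply Nat.pow_le_pow_right (by norm_num)
          calc (4 + 2 * c2) * j + (r + 4) ≤ (4 + 2 * c2) * j ^ 2 + (r + 4) * j ^ 2 :=
                Nat.add_le_add (Nat.mul_le_mul_left _ hjj) (Nat.le_mul_of_pos_right _ (by positivity))
            _ = (8 + 2 * c2 + r) * j ^ 2 := by ring
            _ ≤ _ := Nat.mul_le_mul_right _ (by omega)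
  · obtain ⟨m, hm⟩ : ∃ m, m = j ^ 2 := ⟨_, rfl⟩
    rw [← hm] at hjj ⊢
    have hm1 : 1 ≤ m := by omega
    have hm2 : 2 ≤ m := by omega
    have k1 : a * 2 ^ (c * e * m) ≤ 2 ^ ((a + c * e + 2 * c2 + 3 * r + 3) * m) := by
      calc a * 2 ^ (c * e * m) ≤ 2 ^ (a * m) * 2 ^ (c * e * m) := by
            apply Nat.mul_le_mul_right
            exact (Nat.lt_two_pow_self.le).trans (Nat.pow_le_pow_right (by norm_num) (Nat.le_mul_of_pos_right _ hm1))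
        _ = 2 ^ ((a + c * e) * m) := by
            rw [← pow_add]
            congr 1
            ring
        _ ≤ _ := Nat.pow_le_pow_right (by norm_num) (Nat.mul_le_mul_right _ (by omega))
    have k2 : tE r (2 ^ ((r + 1) * (2 * j))) (2 ^ (2 * j)) r ≤ 2 ^ ((a + c * e + 2 * c2 + 3 * r + 3) * m) := by
      refine g2.trans (Nat.pow_le_pow_right (by norm_num) ?_)
      calc c2 * (2 * j) = 2 * c2 * j := by ring
        _ ≤ 2 * c2 * m := Nat.mul_le_mul_left _ hjj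
        _ ≤ _ := Nat.mul_le_mul_right _ (by omega)
    have k3 : 3 * r + 3 ≤ 2 ^ ((a + c * e + 2 * c2 + 3 * r + 3) * m) := by
      calc 3 * r + 3 ≤ 2 ^ (3 * r + 3) := Nat.lt_two_pow_self.le
        _ ≤ 2 ^ ((3 * r + 3) * m) :=
            Nat.pow_le_pow_right (by norm_num) (Nat.le_mul_of_pos_right _ hm1)
        _ ≤ _ := Nat.pow_le_pow_right (by norm_num) (Nat.mul_le_mul_right _ (by omega))
    have k4 : m ≤ 2 ^ m := Nat.lt_two_pow_self.le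
    have k5 : 3 ≤ 2 ^ m := by
      have : 2 ^ 2 ≤ 2 ^ m := Nat.pow_le_pow_right (by norm_num) hm2
      omega
    calc m * (a * 2 ^ (c * e * m) + tE r (2 ^ ((r + 1) * (2 * j))) (2 ^ (2 * j)) r + 3 * r + 3) ≤
          2 ^ m * (3 * 2 ^ ((a + c * e + 2 * c2 + 3 * r + 3) * m)) := Nat.mul_le_mul k4 (by omega)
      _ ≤ 2 ^ m * (2 ^ m * 2 ^ ((a + c * e + 2 * c2 + 3 * r + 3) * m)) :=
          Nat.mul_le_mul_left _ (Nat.mul_le_mul_right _ k5)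
      _ = 2 ^ ((a + c * e + 2 * c2 + 3 * r + 5) * m) := by
          rw [← pow_add, ← pow_add]
          congr 1
          ring
      _ ≤ 2 ^ (C * m) := Nat.pow_le_pow_right (by norm_num) (Nat.mul_le_mul_right _ (by omega))

end Pool.Agent.Helper38.MS
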