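import Pool.Agent.Helper38.MS.Defs
import Pool.Agent.Helper6.EA.Main

/-!
# MS9: the data of one step
-/

set_option autoImplicit false
set_option linter.unusedSectionVars false

namespace Pool.Agent.Helper38.MS

open FirstOrder Pool.Agent.Helper20.Spectra Pool.Agent.Helper31.QD Pool.Agent.Helper38.MC
  Pool.Agent.Helper58.QD Pool.Agent.Helper40.MC Pool.Agent.Helper6.MC Pool.Agent.Helper6.EA
open Pool.Agent.Helper12.EK (Gr Ball Cmp mem_Cmp mem_Ball hit_ball)

variable {S : Type} {ar : S → ℕ} {V : Type} [Fintype V]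

private lemma mem_orb31 {G : Subgroup (Equiv.Perm V)} {x y : V} : y ∈ orb G x ↔ ∃ g ∈ G, g x = y := by
  classical
  unfold orb
  rw [Finset.mem_filter]
  simp

/-- the instances do not matter -/
private lemma deg_card31 {P : V → Prop} {i1 i2 : DecidablePred P} {d : ℕ}
    (h : (@Finset.filter V P i1 Finset.univ).card ≤ d) : (@Finset.filter V P i2 Finset.univ).card ≤ d := by
  have e : @Finset.filter V P i2 Finset.univ = @Finset.filter V P i1 Finset.univ := by
    ext z
    simp only [Finset.mem_filter]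
  rw [e]
  exact h

private lemma Cmp_eq_Ball31 [DecidableEq V] (E : V → V → Prop) (x : V) : Cmp E x = Ball E x (Fintype.card V) := by
  ext y
  rw [mem_Cmp, mem_Ball]
  refine ⟨fun h => ⟨h, ?_⟩, fun h => h.1⟩
  obtain ⟨p, hp⟩ := h.exists_path_of_dist
  rw [← hp.2]
  exact (hp.1.length_lt).le

/-- MS9: the data of one step (first half of stepR_of with `A₀ = ∅`) -/
theorem stepD {r : ℕ} (har : ∀ s, ar s ≤ r) (R : Interp S ar V) [DecidableEq V] {s s' q l M₀ : ℕ} (hq : 1 ≤ q)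
    (hs : ∀ x, (orb (AuG R) x).card ≤ s)
    (hl : s * (cB r (dE r l q r)) ^ 2 * (r * l + 1) ^ r * q * (q ^ r - 1) ^ l ≤ (q ^ r) ^ l)
    (hM : (q - 1) ^ (M₀ + 1) * q ≤ q ^ (M₀ + 1))
    (h1 : ((M₀ + 1) * (dE r l q r + 1) ^ 2) ^ (Nat.log 2 M₀ + 1) ≤ s') :
    ∃ (A : Finset V) (E : V → V → Prop), q * A.card ≤ (r * (r + 3) + 2) * Fintype.card V ∧
      Gd r R A E r (dE r l q r) (tE r l q r) ∧
      ∀ A', A ⊆ A' → ∀ x, ((∃ a ∈ A, a ∈ Cmp E x) → (oA R A' x).card ≤ s') ∧
        ((∀ y ∈ Cmp E x, y ∉ A) → (Cmp E x).card ≤ M₀) := by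
  have hs' : ∀ x, (oA R ∅ x).card ≤ s := by
    intro x
    refine le_trans (Finset.card_le_card ?_) (hs x)
    intro y hy
    obtain ⟨g, hg, h⟩ := mem_orb'.1 hy
    exact mem_orb31.2 ⟨g, (mem_GS.1 hg).1, h⟩
  obtain ⟨A, E, hA, hAq, hG⟩ := rounds_of_round
      (fun _ _ har _ _ R _ _ _ _ _ hq hs U hU hB hl => round har R hq hs U hU hB hl) har R hq hs' hl
  obtain ⟨B, hB, hball⟩ := hit_ball E q M₀ hq hM
  have hball' : ∀ z ρ, (∀ y ∈ Ball E z ρ, y ∉ A ∪ B) → (Ball E z ρ).card ≤ M₀ :=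
    fun z ρ h => hball z ρ (fun y hy hyB => h y hy (Finset.mem_union_right _ hyB))
  rw [Finset.card_empty, mul_zero, zero_add] at hAq
  refine ⟨A ∪ B, E, ?_, ⟨hG.refl, hG.symm, ?_, hG.deg, ?_⟩, ?_⟩
  · have := Finset.card_union_le A B
    calc q * (A ∪ B).card ≤ q * (A.card + B.card) := Nat.mul_le_mul_left _ this
      _ = q * A.card + q * B.card := by ring
      _ ≤ r * (r + 3) * Fintype.card V + 2 * Fintype.card V := Nat.add_le_add hAq hB
      _ = _ := by ring
  · intro g hg x y hxy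
    exact hG.inv g (GA_mono14 Finset.subset_union_left hg) x y hxy
  · intro A' hA'
    exact hG.main A' (Finset.subset_union_left.trans hA')
  · intro A' hA' x
    refine ⟨fun hx => ?_, fun hx => ?_⟩
    · refine le_trans (Finset.card_le_card (oA_mono14 hA' x)) (le_trans ?_ h1)
      exact doublingG R Finset.subset_union_left E hG.symm (fun x => deg_card31 (hG.deg x)) hG.inv hball' hx
    · rw [Cmp_eq_Ball31]
      apply hball'
      intro y hy hyA
      rw [← Cmp_eq_Ball31] at hy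
      exact hx y hy hyA

end Pool.Agent.Helper38.MS
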